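import Mathlib
import Pool.Agent.H56.HausLowerFin

/-!
# MP_7e59b3_an: the lower bound c_1 ≥ 1/2

The extremal continuum is a comb of combs: stacked horizontal combs whose vertical teeth have
length and spacing `h`, two consecutive combs being at distance `h`, all attached to one vertical
spine. Every curve at Hausdorff distance `< h/2` has to visit all tips and to come down between any
two of them, so its second coordinate has at least `2T - 2` monotone pieces (`T` teeth).
-/

set_option autoImplicit false

namespace Pool.Agent.Results.MP_7e59b3_an.LowerHalf

open Pool.Agent.H56.Haus
open scoped ENNReal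

theorem result : ∀ a b : ℝ, a < b → (1 / 2 : ℝ≥0∞) ≤ c1 a b :=
  fun _ _ hab => c1_lower hab

end Pool.Agent.Results.MP_7e59b3_an.LowerHalf
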