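import Mathlib
import Pool.Agent.H56.HausUpperFin

/-!
# MP_7e59b3_an: the upper bound c_1 ≤ √2

A continuum is traced, up to half a cell, by a walk of at most `2 M ^ 2 - 2` moves through the
cells of an `M × M` grid. The walk is parametrised by the arc length of the circle of half-angles
and approximated by algebraic polynomials through the Favard theorem (also proved here): an even
`2π`-periodic `Λ`-Lipschitz function is at distance at most `π Λ / (2 (n + 1))` from a polynomial
of degree at most `n` in `cos x`.
-/

set_option autoImplicit false

namespace Pool.Agent.Results.MP_7e59b3_an.UpperSqrtTwo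

open Pool.Agent.H56.Haus

theorem result : ∀ a b : ℝ, a < b → c1 a b ≤ ENNReal.ofReal (Real.sqrt 2) :=
  fun _ _ hab => c1_upper hab

end Pool.Agent.Results.MP_7e59b3_an.UpperSqrtTwo
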